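import Mathlib
import Pool.Agent.H.MP_bae42e_co.helper93.Core

/-! An explicit bound for the nonrepetitive chromatic number of `G/M`. -/

set_option autoImplicit false

namespace Pool.Agent.Results.MP_bae42e_co.ExplicitBound

/-- `c` is nonrepetitive: for every path `v 0, …, v (2t - 1)` of `G` with `t ≥ 1` some `i < t` has
`c (v i) ≠ c (v (t + i))`. -/
def Nonrepetitive {V C : Type} (G : SimpleGraph V) (c : V → C) : Prop :=
  ∀ (t : ℕ) (v : Fin (t + t) → V), 1 ≤ t → Function.Injective v →
    (∀ i j : Fin (t + t), (i : ℕ) + 1 = j → G.Adj (v i) (v j)) →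
    ∃ i : Fin t, c (v (Fin.castAdd t i)) ≠ c (v (Fin.natAdd t i))

/-- The nonrepetitive chromatic number. -/
noncomputable def nonrepNumber {V : Type} (G : SimpleGraph V) : ℕ :=
  sInf {k | ∃ c : V → Fin k, Nonrepetitive G c}

/-- The graph `G/M`: the edges of `M` are contracted, loops and parallel edges are deleted. -/
def contract {V : Type} (G : SimpleGraph V) (M : G.Subgraph) : SimpleGraph (Quot M.Adj) where
  Adj X Y := X ≠ Y ∧ ∃ u v, Quot.mk M.Adj u = X ∧ Quot.mk M.Adj v = Y ∧ G.Adj u v
  symm := ⟨by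
    rintro X Y ⟨h, u, v, hu, hv, huv⟩
    exact ⟨h.symm, v, u, hv, hu, huv.symm⟩⟩
  loopless := ⟨fun X h => h.1 rfl⟩

open Pool.Agent.H.MP_bae42e_co.helper93 in
lemma nonRep_of {V C : Type} {G : SimpleGraph V} {c : V → C} (h : Nonrepetitive G c) :
    NonRep G c := by
  intro A B hA hch hnd hAB
  have hlen : B.length = A.length := by
    have := congrArg List.length hAB
    simpa using this.symm
  have hlen2 : (A ++ B).length = A.length + A.length := by rw [List.length_append, hlen]
  obtain ⟨i, hi⟩ := h A.length (fun i => (A ++ B)[(i : ℕ)]'(by rw [hlen2]; exact i.2))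
    (List.length_pos_of_ne_nil hA) (by
      intro i j hij
      apply Fin.ext
      exact (List.Nodup.getElem_inj_iff hnd).1 hij) (by
      intro i j hij
      have := List.isChain_iff_getElem.1 hch i (by rw [hlen2]; omega)
      simp only [← hij]
      exact this)
  apply hi
  have e1 : (A ++ B)[((Fin.castAdd A.length i : Fin (A.length + A.length)) : ℕ)]'(by
      rw [hlen2]; exact (Fin.castAdd A.length i).2) = A[(i : ℕ)] := by
    simp only [Fin.val_castAdd]
    exact List.getElem_append_left i.2
  have e2 : (A ++ B)[((Fin.natAdd A.length i : Fin (A.length + A.length)) : ℕ)]'(by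
      rw [hlen2]; exact (Fin.natAdd A.length i).2) = B[(i : ℕ)]'(by rw [hlen]; exact i.2) := by
    simp only [Fin.val_natAdd]
    rw [List.getElem_append_right (by omega)]
    simp
  rw [e1, e2]
  have := List.getElem_of_eq hAB (i := (i : ℕ)) (by simp)
  simpa using this

lemma of_nonRep {V C : Type} {G : SimpleGraph V} {c : V → C}
    (h : ∀ A B : List V, A ≠ [] → (A ++ B).IsChain G.Adj → (A ++ B).Nodup →
      A.map c = B.map c → False) : Nonrepetitive G c := by
  intro t v ht hinj hadj
  by_contra hcon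
  push Not at hcon
  have happ : List.ofFn (fun i : Fin t => v (Fin.castAdd t i)) ++
      List.ofFn (fun i : Fin t => v (Fin.natAdd t i)) = List.ofFn v := by
    rw [← List.ofFn_fin_append]
    congr 1
    exact Fin.append_castAdd_natAdd
  refine h (List.ofFn (fun i : Fin t => v (Fin.castAdd t i)))
    (List.ofFn (fun i : Fin t => v (Fin.natAdd t i))) ?_ ?_ ?_ ?_
  · intro h0
    have := congrArg List.length h0
    simp at this
    omega
  · rw [happ, List.isChain_iff_getElem]
    intro i hi
    simp only [List.getElem_ofFn]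
    exact hadj _ _ rfl
  · rw [happ]
    exact List.nodup_ofFn.2 hinj
  · rw [List.map_ofFn, List.map_ofFn]
    congr 1
    funext i
    exact hcon i

lemma exists_nonrep {V : Type} [Fintype V] (G : SimpleGraph V) :
    ∃ c : V → Fin (nonrepNumber G), Nonrepetitive G c := by
  have hne : {k | ∃ c : V → Fin k, Nonrepetitive G c}.Nonempty := by
    refine ⟨Fintype.card V, Fintype.equivFin V, ?_⟩
    intro t v ht hinj _
    refine ⟨⟨0, ht⟩, fun h => ?_⟩
    have h1 := hinj ((Fintype.equivFin V).injective h)
    have h2 := congrArg Fin.val h1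
    simp at h2
    omega
  exact Nat.sInf_mem hne

open Pool.Agent.H.MP_bae42e_co.helper93 in
lemma card_col (k : ℕ) : Nat.card (Col k) =
    2 ^ k * 6 ^ (k ^ 4) * (6 ^ (k ^ 4) + 1) ^ (k ^ 2) := by
  have h0 : Nat.card (Col0 k) = 6 ^ (k ^ 4) := by
    simp only [Col0, Nat.card_eq_fintype_card, Fintype.card_pi, Finset.prod_const,
      Finset.card_univ, Fintype.card_fin, Fintype.card_prod, Fintype.card_bool]
    rw [← pow_mul, ← pow_mul, ← pow_mul]
    congr 1
    ring
  have h1 : Nat.card (Option (Col0 k)) = 6 ^ (k ^ 4) + 1 := by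
    have := h0
    rw [Nat.card_eq_fintype_card] at this ⊢
    rw [Fintype.card_option, this]
  rw [Col, Nat.card_prod, Nat.card_prod, h0, Nat.card_fun, Nat.card_fun, Nat.card_fun, h1,
    Nat.card_fin, Nat.card_eq_fintype_card (α := Bool), Fintype.card_bool, ← pow_mul, ← sq,
    mul_assoc]

/-- For every finite graph `G` and every matching `M` of `G`, with `k = π(G)`,
`π(G/M) ≤ 2^k * 6^(k^4) * (6^(k^4) + 1)^(k^2)`. -/
theorem result : ∀ (V : Type) [Fintype V] (G : SimpleGraph V) (M : G.Subgraph), M.IsMatching →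
    nonrepNumber (contract G M) ≤ 2 ^ nonrepNumber G * 6 ^ (nonrepNumber G ^ 4) *
      (6 ^ (nonrepNumber G ^ 4) + 1) ^ (nonrepNumber G ^ 2) := by
  intro V _ G M hM
  obtain ⟨c, hc⟩ := exists_nonrep G
  generalize nonrepNumber G = k at *
  rw [← card_col]
  have hfin := Pool.Agent.H.MP_bae42e_co.helper93.finite_col k
  obtain ⟨φ, hφ⟩ := Pool.Agent.H.MP_bae42e_co.helper93.nonRep_contract hM (nonRep_of hc)
  refine Nat.sInf_le ⟨fun X => Finite.equivFin _ (φ X), of_nonRep ?_⟩
  intro A B hA hch hnd hAB
  refine hφ A B hA hch hnd ?_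
  have e := congrArg (List.map (Finite.equivFin
    (Pool.Agent.H.MP_bae42e_co.helper93.Col k)).symm) hAB
  simpa [List.map_map, Function.comp_def] using e

end Pool.Agent.Results.MP_bae42e_co.ExplicitBound
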